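import Mathlib
import Pool.Agent.L0h44.LC.FIN2
import Pool.Agent.L0h44.LC.GRP2
import Pool.Agent.L0h44.LC.GRP3
import Pool.Agent.L0h19.LC.RDG
import Pool.Agent.L0h83.LC.TRV
import Pool.Agent.L0h83.LC.BU
import Pool.Agent.L0h10.LC.PI1
import Pool.Agent.L0h72.LC.INJ
import Pool.Agent.L0h72.LC.PI2
import Pool.Agent.L0h66.LC.BD3
import Pool.Agent.L0h87.LC.ACY
import Pool.Agent.L0h6.LC.CONN
import Pool.Agent.L0h6.LC.BD1
import Pool.Agent.L0h44.LC.BD2

/-!
# Contractible 4-manifolds without locally constructible triangulations

Let `X` be a contractible 4-manifold whose boundary `∂X` is connected, with no nontrivial homomorphism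
`π₁(∂X) → ℤ/2`. If `X` has a locally constructible triangulation, then every homomorphism `π₁(∂X) → SU(2)` is
trivial. So `X` has no locally constructible triangulation if `π₁(∂X)` is the group of the Brieskorn sphere
`Σ(2,5,7)`, as it is for Mazur's manifold `W` (Akbulut and Kirby: `W⁺(0,0)`). The same holds if `π₁(∂X)` is the group
read off from the Kirby diagram of `W` with the clasp of the other sign (`W⁻(0,0)`, the Akbulut cork), or the group of
`Σ(2,3,13)`, the boundary given by the diagram with three strands, one clasp and framing 0 in which the 2-handle is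
attached along a trefoil (`W⁺(0,1)`).

The definitions of complexes (`IsCx`), their realizations (`realization`) and facets are in
`Pool.Agent.H933R3.Defs`; the definition of the locally constructible complexes (`IsTreeLC`: a tree of simplices,
`TreeStage`, followed by local gluings, `GlueStage`) is in `Pool.Agent.Y364.E3.Tree`; `TopBd`, `IsMfd` are in
`Pool.Agent.L0h44.LC.Stm2`, `PiTriv` in `Pool.Agent.L0h44.LC.FIN`, `SeifertGroup` in `Pool.Agent.L0h44.LC.GRP3`, and
`MazurOther` (the Wirtinger presentation of the Kirby diagram with the clasp of the other sign, and the two longitudes)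
in `Pool.Agent.L0h44.LC.GRP2`; this group maps onto the binary icosahedral group.

Method. For each of the local gluings the triangle along which it is made is determined by the other triangles: a
labelling of the edges by elements of a group which is flat on the remaining interior triangles and on the boundary
is flat. The coboundary mod 2 from the interior edges to these triangles is onto, since `X` is acyclic and `∂X` has
no first cohomology mod 2. By a Borsuk-Ulam theorem for `SU(2) × ... × SU(2)` every flat SU(2)-labelling of the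
boundary extends to a flat labelling of the triangulation (the argument of Gerstenhaber and Rothaus, Casson's
obstruction to handle decompositions without 1-handles), and this is trivial since locally constructible complexes
are simply connected.
-/

set_option autoImplicit false

namespace Pool.Agent.Results.MP_07bfe7_gt.NoLCTriangulation

open Pool.Agent.H933R3 Pool.Agent.Y364.E3 Pool.Agent.L0h44.LC

/-- `X` has a locally constructible triangulation (as a 4-dimensional complex) -/
def HasLCTriangulation (X : Type) [TopologicalSpace X] : Prop :=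
  ∃ (n : ℕ) (K : Finset (Finset (Fin n))), IsCx K ∧ IsTreeLC 4 K ∧ Nonempty (realization K ≃ₜ X)

theorem piTriv {X : Type} [TopologicalSpace X] [ContractibleSpace X] (hX : IsMfd X)
    (hc : PathConnectedSpace (TopBd X)) (h2 : PiTriv (TopBd X) (Multiplicative (ZMod 2)))
    (hLC : HasLCTriangulation X) : PiTriv (TopBd X) SU2 := by
  obtain ⟨n, K, hK, hL, e⟩ := hLC
  exact main2 Pool.Agent.L0h19.LC.t_RDG Pool.Agent.L0h83.LC.t_TRV Pool.Agent.L0h83.LC.t_BU Pool.Agent.L0h10.LC.t_PI1
    Pool.Agent.L0h87.LC.t_ACY Pool.Agent.L0h72.LC.t_INJ Pool.Agent.L0h72.LC.t_PI2 Pool.Agent.L0h6.LC.t_CON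
    Pool.Agent.L0h6.LC.t_BD1 t_BD2 Pool.Agent.L0h66.LC.t_BD3 X hX hc h2
    ⟨n, K, hK, isLC_of_isTreeLC hL, e⟩

/-- Let `X` be a contractible 4-manifold with path connected boundary. (1) If `π₁(∂X)` has no nontrivial
homomorphism to `ℤ/2` and `X` has a locally constructible triangulation, then `π₁(∂X)` has no nontrivial
homomorphism to SU(2). (2) If `π₁(∂X)` is isomorphic to `SeifertGroup q r` with odd `q, r ≥ 3`, for example to the
group of the Brieskorn sphere `Σ(2,5,7)` (`(q, r) = (5, 7)`) or `Σ(2,3,13)` (`(q, r) = (3, 13)`), then `X` has no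
locally constructible triangulation. (3) The same if `π₁(∂X)` is isomorphic to `MazurOther`, the group given by the
Kirby diagram of Mazur's manifold with the clasp of the other sign. -/
theorem result (X : Type) [TopologicalSpace X] [ContractibleSpace X] (hX : IsMfd X)
    (hc : PathConnectedSpace (TopBd X)) :
    (PiTriv (TopBd X) (Multiplicative (ZMod 2)) → HasLCTriangulation X → PiTriv (TopBd X) SU2) ∧
    (∀ q r : ℕ, 3 ≤ q → 3 ≤ r → Odd q → Odd r →
      (∃ x : TopBd X, Nonempty (FundamentalGroup (TopBd X) x ≃* SeifertGroup q r)) → ¬ HasLCTriangulation X) ∧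
    ((∃ x : TopBd X, Nonempty (FundamentalGroup (TopBd X) x ≃* MazurOther)) → ¬ HasLCTriangulation X) := by
  refine ⟨piTriv hX hc, ?_, ?_⟩
  · rintro q r hq hr hqo hro ⟨x, ⟨e⟩⟩ hLC
    have h2 : PiTriv (TopBd X) (Multiplicative (ZMod 2)) := piTriv_of_equiv e (rep_two_seifert hqo hro)
    obtain ⟨φ, hφ⟩ := exists_rep_seifert hq hr hqo hro
    exact hφ (triv_of_piTriv e (piTriv hX hc h2 hLC) φ)
  · rintro ⟨x, ⟨e⟩⟩ hLC
    have h2 : PiTriv (TopBd X) (Multiplicative (ZMod 2)) := piTriv_of_equiv e rep_two_other
    obtain ⟨φ, hφ⟩ := exists_rep_other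
    exact hφ (triv_of_piTriv e (piTriv hX hc h2 hLC) φ)

end Pool.Agent.Results.MP_07bfe7_gt.NoLCTriangulation
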